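import Pool.Agent.R274.SH.Defs
import Pool.Agent.R274.SH.Ga
import Pool.Agent.R274.SH.Gad
import Pool.Agent.R274.SH.Lin
import Pool.Agent.R274.SH.Radc
import Pool.Agent.R274.SH.Radg
import Pool.Agent.R274.SH.Cont
import Pool.Agent.R274.SH.Ball
import Pool.Agent.R274.SH.Sph
import Pool.Agent.R274.SH.Noemb
import Pool.Agent.R274.SH.Shad
import Pool.Agent.R274.SH.Low
import Pool.Agent.R274.SH.Fin
import Pool.Agent.R274.SH.Ex

/-!
# Coordinate shadows of embedded balls that are spheres

The largest number `N k d` of coordinate shadows of a `k`-ball embedded in `ℝ^d` (`k ≥ 1`, `d ≥ 2`)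
that are embedded `k`-spheres is `d` if `k ≤ d - 2` and `0` otherwise.

Construction for `k ≤ d - 2`: a piecewise linear arc in `ℝ^d` whose `i`-th shadow is, for every `i`,
a closed curve, radially injective modulo a linear space of dimension `k - 1`; the ball is the
spherical join of the arc with the unit sphere of that space.
-/

set_option autoImplicit false

namespace Pool.Agent.Results.MP_537073_gt.SphereShadows

open Set Metric

/-- The `i`-th coordinate shadow of `A ⊆ ℝ^d`: the image of `A` under the orthogonal projection onto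
the hyperplane `x_i = 0`, i.e. the `i`-th coordinate is replaced by `0`. -/
def shadow {d : ℕ} (i : Fin d) (A : Set (Fin d → ℝ)) : Set (Fin d → ℝ) :=
  (fun x => Function.update x i 0) '' A

/-- `A` is an embedded `k`-ball: it is homeomorphic to the closed `k`-dimensional ball. -/
def IsBall (k : ℕ) {d : ℕ} (A : Set (Fin d → ℝ)) : Prop :=
  Nonempty (A ≃ₜ closedBall (0 : EuclideanSpace ℝ (Fin k)) 1)

/-- `A` is an embedded `k`-sphere: it is homeomorphic to the unit sphere of `ℝ^(k+1)`. -/
def IsSphere (k : ℕ) {d : ℕ} (A : Set (Fin d → ℝ)) : Prop :=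
  Nonempty (A ≃ₜ sphere (0 : EuclideanSpace ℝ (Fin (k + 1))) 1)

/-- The numbers of coordinate shadows that are embedded `k`-spheres, over all embedded `k`-balls
of `ℝ^d`. -/
def counts (k d : ℕ) : Set ℕ :=
  {n | ∃ B : Set (Fin d → ℝ), IsBall k B ∧ n = {i | IsSphere k (shadow i B)}.ncard}

/-- The largest such number (`0` if there is no embedded `k`-ball in `ℝ^d`). -/
noncomputable def N (k d : ℕ) : ℕ := sSup (counts k d)

/-- `N k d = d` for `1 ≤ k ≤ d - 2` and `N k d = 0` for `k ≥ d - 1`; this number is attained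
whenever `k ≤ d`, and for `d < k` there is no embedded `k`-ball in `ℝ^d`. -/
theorem result (k d : ℕ) (hk : 1 ≤ k) (hd : 2 ≤ d) :
    (k + 2 ≤ d → N k d = d) ∧ (d ≤ k + 1 → N k d = 0) ∧
      (k ≤ d → IsGreatest (counts k d) (N k d)) ∧
      (d < k → ∀ B : Set (Fin d → ℝ), ¬ IsBall k B) := by
  have hlow : R274.SH.S_LOW :=
    R274.SH.low (R274.SH.gad R274.SH.ga) R274.SH.lin R274.SH.radc R274.SH.radg R274.SH.cont
      R274.SH.ball R274.SH.sph
  have hshad : R274.SH.S_SHAD := R274.SH.shad R274.SH.noemb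
  obtain ⟨h1, h2⟩ := R274.SH.fin hlow hshad
  have h1' : k + 2 ≤ d → N k d = d := h1 k d hk
  have h2' : d ≤ k + 1 → N k d = 0 := h2 k d hk
  refine ⟨h1', h2', ?_, fun h => R274.SH.noball R274.SH.noemb k d hd h⟩
  intro hkd
  have hne : (counts k d).Nonempty := by
    obtain ⟨B, hB⟩ := R274.SH.ex k d hkd
    exact ⟨_, B, hB, rfl⟩
  have hbdd : BddAbove (counts k d) := by
    refine ⟨d, ?_⟩
    rintro n ⟨B', _, rfl⟩
    have h := Set.ncard_le_ncard (Set.subset_univ {i | IsSphere k (shadow i B')})
      Set.finite_univ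
    rwa [Set.ncard_univ, Nat.card_eq_fintype_card, Fintype.card_fin] at h
  exact ⟨Nat.sSup_mem hne hbdd, fun n hn => le_csSup hbdd hn⟩

end Pool.Agent.Results.MP_537073_gt.SphereShadows
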